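import Mathlib
import Pool.Agent.MP_f19a21_co.Defs
import Pool.Agent.MP_f19a21_co.Main

set_option autoImplicit false

open SimpleGraph Pool.Agent.MP_f19a21_co

namespace Pool.Agent.Results.MP_f19a21_co.SosThreshold

/-- Every fixed three-chromatic graph has, asymptotically, the same edge threshold in the
cycle powers `G_{n,r}` as the triangle. -/
theorem result (W : Type*) [Fintype W] (H : SimpleGraph W) (hH : H.chromaticNumber = 3)
    (ε : ℝ) (hε : 0 < ε) :
    ∃ r₀ : ℕ, ∀ r ≥ r₀, ∃ n₀ : ℕ, ∀ n ≥ n₀, ∀ S : (cyclePower n r).Subgraph,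
      (c + ε) * ((r : ℝ) * (n : ℝ)) ≤ (S.edgeSet.ncard : ℝ) → H ⊑ S.coe :=
  main W H (chromaticNumber_le_iff_colorable.1 (by rw [hH]; rfl)) ε hε

end Pool.Agent.Results.MP_f19a21_co.SosThreshold
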